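import Mathlib
import Pool.Agent.Helper470.ZS.Defs
set_option autoImplicit false
noncomputable section
open Finset

namespace Pool.Agent.Helper470.ZS.L

theorem lower_bound_negcard (n : ℕ) :
    ((Finset.univ : Finset (Fin n)).filter (fun i => i.val < n / 2)).card = n / 2 := by
  have h : (Finset.univ : Finset (Fin n)).filter (fun i => i.val < n / 2) =
      (Finset.univ : Finset (Fin (n / 2))).map (Fin.castLEEmb (Nat.div_le_self n 2)) := by
    ext i
    simp only [Finset.mem_filter, Finset.mem_univ, true_and, Finset.mem_map]
    constructor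
    · intro hi
      exact ⟨⟨i.val, hi⟩, rfl⟩
    · rintro ⟨a, rfl⟩
      exact a.isLt
  rw [h, Finset.card_map, Finset.card_univ, Fintype.card_fin]

theorem lower_bound_sum (n : ℕ) (S : Finset (Fin n)) :
    ∑ i ∈ S, (if i.val < n / 2 then (-1 : ℝ) else 1) =
      (S.card : ℝ) - 2 * ((S ∩ (Finset.univ.filter (fun i : Fin n => i.val < n / 2))).card : ℝ) := by
  have h1 : ∀ i : Fin n, (if i.val < n / 2 then (-1 : ℝ) else 1) =
      1 - 2 * (if i.val < n / 2 then (1 : ℝ) else 0) := by
    intro i
    split_ifs <;> norm_num
  simp_rw [h1]
  rw [Finset.sum_sub_distrib, ← Finset.mul_sum, Finset.sum_boole]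
  simp only [Finset.sum_const, nsmul_eq_mul, mul_one]
  congr 3
  congr 1
  ext i
  simp

theorem lower_bound_zero_iff (n : ℕ) (S : Finset (Fin n)) :
    ∑ i ∈ S, (if i.val < n / 2 then (-1 : ℝ) else 1) = 0 ↔
      S.card = 2 * (S ∩ (Finset.univ.filter (fun i : Fin n => i.val < n / 2))).card := by
  rw [lower_bound_sum, sub_eq_zero]
  exact_mod_cast Iff.rfl

theorem lower_bound (n r : ℕ) (hr : Odd r) :
    ∃ x : Fin n → ℝ, (∀ S : Finset (Fin n), S.card = r → ∑ i ∈ S, x i ≠ 0) ∧
      N x Finset.univ {0} = n.choose (n / 2) := by
  classical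
  refine ⟨fun i => if i.val < n / 2 then (-1 : ℝ) else 1, ?_, ?_⟩
  · intro S hS h0
    rw [lower_bound_zero_iff] at h0
    rw [hS] at h0
    obtain ⟨k, hk⟩ := hr
    omega
  · set Neg : Finset (Fin n) := Finset.univ.filter (fun i : Fin n => i.val < n / 2) with hNeg
    have hcard : Neg.card = n / 2 := lower_bound_negcard n
    have hN : N (fun i : Fin n => if i.val < n / 2 then (-1 : ℝ) else 1) Finset.univ {0} =
        (Finset.univ.filter (fun B : Finset (Fin n) =>
          B.card = 2 * (B ∩ Neg).card)).card := by
      unfold N
      rw [Finset.powerset_univ]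
      congr 1
      ext B
      simp only [Finset.mem_filter, Finset.mem_univ, true_and, Set.mem_singleton_iff]
      exact lower_bound_zero_iff n B
    rw [hN]
    have hchoose : (Finset.powersetCard (n / 2) (Finset.univ : Finset (Fin n))).card =
        n.choose (n / 2) := by
      rw [Finset.card_powersetCard, Finset.card_univ, Fintype.card_fin]
    rw [← hchoose]
    have key : ∀ B : Finset (Fin n), (symmDiff B Neg).card + 2 * (B ∩ Neg).card =
        B.card + Neg.card := by
      intro B
      have e1 : (symmDiff B Neg).card = (B \ Neg).card + (Neg \ B).card := by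
        rw [symmDiff_def, Finset.sup_eq_union, Finset.card_union_of_disjoint]
        rw [Finset.disjoint_left]
        intro a ha hb
        rw [Finset.mem_sdiff] at ha hb
        exact hb.2 ha.1
      have e2 := Finset.card_sdiff_add_card_inter B Neg
      have e3 := Finset.card_sdiff_add_card_inter Neg B
      rw [Finset.inter_comm Neg B] at e3
      omega
    refine Finset.card_nbij' (fun B => symmDiff B Neg) (fun B => symmDiff B Neg) ?_ ?_ ?_ ?_
    · intro B hB
      simp only [Finset.coe_filter, Finset.mem_univ, true_and, Set.mem_setOf_eq] at hB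
      simp only [Finset.mem_coe, Finset.mem_powersetCard, Finset.subset_univ, true_and]
      have := key B
      omega
    · intro B hB
      simp only [Finset.mem_coe, Finset.mem_powersetCard, Finset.subset_univ, true_and] at hB
      simp only [Finset.coe_filter, Finset.mem_univ, true_and, Set.mem_setOf_eq]
      have h1 := key (symmDiff B Neg)
      rw [symmDiff_symmDiff_cancel_right] at h1
      have h2 := key B
      omega
    · intro B _
      exact symmDiff_symmDiff_cancel_right Neg B
    · intro B _
      exact symmDiff_symmDiff_cancel_right Neg B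

end Pool.Agent.Helper470.ZS.L
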