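import Mathlib
import Pool.Agent.Helper470.ZS.Defs
set_option autoImplicit false
noncomputable section
open Finset

namespace Pool.Agent.Helper470.ZS

theorem OC.symdec_d {g : ℤ → ℤ} (h : OC g) (n : ℕ) (y : ℤ) (hy : -1 ≤ y) :
    g (y + n + 1) - g (y + n) ≤ g (y + 1) - g y := by
  induction n with
  | zero => simp
  | succ n ih =>
    have h1 := h.conc (y + n + 1) (by omega)
    have e1 : y + ((n + 1 : ℕ) : ℤ) + 1 = y + n + 1 + 1 := by push_cast; ring
    have e2 : y + ((n + 1 : ℕ) : ℤ) = y + n + 1 := by push_cast; ring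
    have e3 : y + n + 1 - 1 = y + n := by ring
    rw [e3] at h1
    rw [e1, e2]
    linarith

theorem OC.symdec_m {g : ℤ → ℤ} (h : OC g) (x y : ℤ) (hy : -1 ≤ y) (hxy : y ≤ x) :
    g (x + 1) - g x ≤ g (y + 1) - g y := by
  obtain ⟨n, hn⟩ := Int.le.dest hxy
  subst hn
  exact h.symdec_d n y hy

theorem OC.symdec_s {g : ℤ → ℤ} (h : OC g) (L a : ℤ) (hL : 0 ≤ L) (ha : 0 ≤ a) :
    g (L + (a + 1)) + g (L - (a + 1)) ≤ g (L + a) + g (L - a) := by
  by_cases hc : a ≤ L
  · have h1 := h.symdec_m (L + a) (L - (a + 1)) (by omega) (by omega)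
    have e1 : L - (a + 1) + 1 = L - a := by ring
    have e2 : L + a + 1 = L + (a + 1) := by ring
    rw [e1, e2] at h1
    linarith
  · have h1 := h.symdec_m (L + a) (a - L) (by omega) (by omega)
    have e2 : L + a + 1 = L + (a + 1) := by ring
    have e3 : L - (a + 1) = -(a - L + 1) := by ring
    have e4 : L - a = -(a - L) := by ring
    rw [e2] at h1
    rw [e3, e4, h.odd, h.odd]
    linarith

theorem OC.symdec {g : ℤ → ℤ} (h : OC g) (L a b : ℤ) (hL : 0 ≤ L) (ha : 0 ≤ a) (hab : a ≤ b) :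
    g (L + b) + g (L - b) ≤ g (L + a) + g (L - a) := by
  obtain ⟨n, hn⟩ := Int.le.dest hab
  subst hn
  induction n with
  | zero => simp
  | succ n ih =>
    have h1 := h.symdec_s L (a + n) hL (by positivity)
    have e : a + ((n + 1 : ℕ) : ℤ) = a + n + 1 := by push_cast; ring
    rw [e]
    exact h1.trans (ih (by omega))

theorem OC.two {g : ℤ → ℤ} (h : OC g) : g 4 ≤ 2 * g 2 := by
  have h0 := h.odd 0
  have h1 := h.symdec 2 0 2 (by norm_num) le_rfl (by norm_num)
  norm_num at h0 h1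
  linarith

theorem OC.three {g : ℤ → ℤ} (h : OC g) : g 5 + 2 * g 2 ≤ 3 * g 3 := by
  have h1 := h.symdec_m 3 2 (by norm_num) (by norm_num)
  have h2 := h.symdec_m 4 2 (by norm_num) (by norm_num)
  norm_num at h1 h2
  linarith

end Pool.Agent.Helper470.ZS
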