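import Mathlib
import Pool.Agent.Helper470.ZS.Defs
import Pool.Agent.Helper470.ZS.B
import Pool.Agent.Helper470.ZS.C
import Pool.Agent.Helper470.ZS.D
set_option autoImplicit false
noncomputable section
open Finset

namespace Pool.Agent.Helper470.ZS.E
open Pool.Agent.Helper470.ZS.C Pool.Agent.Helper470.ZS.D

theorem ps_coe (T : Finset ℝ) (a : ℝ) : {t : ℝ | t + a ∈ (T : Set ℝ)} = ((sh T a : Finset ℝ) : Set ℝ) := by
  ext t
  simp only [Set.mem_setOf_eq, Finset.mem_coe, mem_sh]

theorem ps_mod {ι : Type*} [DecidableEq ι] (y : ι → ℝ) (I : Finset ι) (A B : Finset ℝ) :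
    N y I (A : Set ℝ) + N y I (B : Set ℝ) =
      N y I ((A ∪ B : Finset ℝ) : Set ℝ) + N y I ((A ∩ B : Finset ℝ) : Set ℝ) := by
  rw [Finset.coe_union, Finset.coe_inter, N_modular]

theorem ps_zero {g : ℤ → ℤ} (hg : OC g) : g 0 = 0 := by
  have := hg.odd 0
  simp at this
  omega

theorem ps_step {ι : Type*} [DecidableEq ι] (y : ι → ℝ) (I : Finset ι)
    (c : ℤ) (g : ℤ → ℤ) (hg : OC g)
    (hF : ∀ T : Finset ℝ, c * (N y I (T : Set ℝ) : ℤ) ≤ g (T.card : ℤ)) (W : Finset ℝ) (b : ℝ)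
    (q : ℤ) (hq : 0 ≤ q) (h : W.Nonempty → q ≤ ((W ∪ sh W b).card : ℤ) - W.card) :
    c * (N y I (W : Set ℝ) : ℤ) + c * (N y I ((sh W b : Finset ℝ) : Set ℝ) : ℤ) ≤
      g ((W.card : ℤ) + q) + g ((W.card : ℤ) - q) := by
  rcases W.eq_empty_or_nonempty with hW | hW
  · subst hW
    have h1 : sh ∅ b = ∅ := by simp [sh]
    rw [h1, Finset.coe_empty, N_empty_set]
    have := hg.odd q
    simp [this]
  · have h1 := hF (W ∪ sh W b)
    have h2 := hF (W ∩ sh W b)
    have h3 := card_union_inter_sh W b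
    have h4 := ps_mod y I W (sh W b)
    have h5 : (c * (N y I (W : Set ℝ) : ℤ) + c * (N y I ((sh W b : Finset ℝ) : Set ℝ) : ℤ)) =
        c * (N y I ((W ∪ sh W b : Finset ℝ) : Set ℝ) : ℤ) +
          c * (N y I ((W ∩ sh W b : Finset ℝ) : Set ℝ) : ℤ) := by
      rw [← mul_add, ← mul_add]
      congr 1
      exact_mod_cast h4
    rw [h5]
    set P : ℤ := ((W ∪ sh W b).card : ℤ) - W.card with hP
    have e1 : ((W ∪ sh W b).card : ℤ) = W.card + P := by rw [hP]; ring
    have e2 : ((W ∩ sh W b).card : ℤ) = W.card - P := by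
      have : ((W ∪ sh W b).card : ℤ) + ((W ∩ sh W b).card : ℤ) = 2 * W.card := by exact_mod_cast h3
      rw [hP]; linarith
    rw [e1] at h1
    rw [e2] at h2
    have h6 := hg.symdec (W.card : ℤ) q P (Int.natCast_nonneg _) hq (h hW)
    linarith

theorem ps_ge_one (W : Finset ℝ) (b : ℝ) (hb : b ≠ 0) (hW : W.Nonempty) :
    (1 : ℤ) ≤ ((W ∪ sh W b).card : ℤ) - W.card := by
  have := card_lt_union_sh W b hb hW
  have h2 : ((W.card : ℤ) + 1) ≤ (W ∪ sh W b).card := by exact_mod_cast this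
  linarith

theorem ps_ge_two (W : Finset ℝ) (a b : ℝ) (ha : a ≠ 0) (hb : b ≠ 0) (hab : |a| ≠ |b|)
    (h1 : (W \ sh W a).card ≤ 1) (hW : 2 ≤ W.card) :
    (2 : ℤ) ≤ ((W ∪ sh W b).card : ℤ) - W.card := by
  by_contra hcon
  push Not at hcon
  have h3 := card_union_inter_sh W b
  have h4 : (W \ sh W b).card + (W ∩ sh W b).card = W.card := Finset.card_sdiff_add_card_inter _ _
  have h5 : (W \ sh W b).card ≤ 1 := by omega
  have := two_chain W a b ha hb hab h1 h5
  omega

theorem ps_sh_union (A B : Finset ℝ) (b : ℝ) : sh (A ∪ B) b = sh A b ∪ sh B b := by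
  ext t
  simp only [mem_sh, Finset.mem_union]

theorem ps_sh_inter (A B : Finset ℝ) (b : ℝ) : sh (A ∩ B) b = sh A b ∩ sh B b := by
  ext t
  simp only [mem_sh, Finset.mem_inter]

theorem pair_step {ι : Type*} [DecidableEq ι] (y : ι → ℝ) (I : Finset ι) (i k : ι)
    (hi : i ∉ I) (hk : k ∉ I) (hik : i ≠ k) (hyi : y i ≠ 0) (hyk : y k ≠ 0) (hne : |y i| ≠ |y k|)
    (c : ℤ) (hc : 0 ≤ c) (g : ℤ → ℤ) (hg : OC g)
    (hF : ∀ T : Finset ℝ, c * (N y I (T : Set ℝ) : ℤ) ≤ g (T.card : ℤ)) (T : Finset ℝ) :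
    2 * c * (N y (insert i (insert k I)) (T : Set ℝ) : ℤ) ≤
      g ((T.card : ℤ) + 3) + 3 * g ((T.card : ℤ) + 1) + 3 * g ((T.card : ℤ) - 1)
        + g ((T.card : ℤ) - 3) := by
  classical
  have hi' : i ∉ insert k I := by
    simp [hik, hi]
  rcases T.eq_empty_or_nonempty with hT | hT
  · subst hT
    rw [Finset.coe_empty, N_empty_set]
    have h1 := hg.odd 1
    have h3 := hg.odd 3
    simp [h1, h3]
  have e0 : (N y (insert i (insert k I)) (T : Set ℝ) : ℤ) =
      ((N y I (T : Set ℝ) : ℤ) + N y I ((sh T (y i) : Finset ℝ) : Set ℝ)) +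
      ((N y I ((sh T (y k) : Finset ℝ) : Set ℝ) : ℤ) +
        N y I ((sh (sh T (y i)) (y k) : Finset ℝ) : Set ℝ)) := by
    rw [N_insert y _ i hi', ps_coe, N_insert y I k hk, N_insert y I k hk, ps_coe, ps_coe]
    push_cast
    ring
  set U := T ∪ sh T (y i) with hU
  set V := T ∩ sh T (y i) with hV
  have e1 : (N y I (T : Set ℝ) : ℤ) + N y I ((sh T (y i) : Finset ℝ) : Set ℝ) =
      (N y I (U : Set ℝ) : ℤ) + N y I (V : Set ℝ) := by
    exact_mod_cast ps_mod y I T (sh T (y i))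
  have e2 : (N y I ((sh T (y k) : Finset ℝ) : Set ℝ) : ℤ) +
        N y I ((sh (sh T (y i)) (y k) : Finset ℝ) : Set ℝ) =
      (N y I ((sh U (y k) : Finset ℝ) : Set ℝ) : ℤ) + N y I ((sh V (y k) : Finset ℝ) : Set ℝ) := by
    rw [hU, hV, ps_sh_union, ps_sh_inter]
    exact_mod_cast ps_mod y I (sh T (y k)) (sh (sh T (y i)) (y k))
  have e3 : c * (N y (insert i (insert k I)) (T : Set ℝ) : ℤ) =
      (c * (N y I (U : Set ℝ) : ℤ) + c * (N y I ((sh U (y k) : Finset ℝ) : Set ℝ) : ℤ)) +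
      (c * (N y I (V : Set ℝ) : ℤ) + c * (N y I ((sh V (y k) : Finset ℝ) : Set ℝ) : ℤ)) := by
    rw [e0, e1, e2]
    ring
  have hp1 := ps_ge_one T (y i) hyi hT
  have hUV := card_union_inter_sh T (y i)
  have hUV' : (U.card : ℤ) + V.card = 2 * T.card := by exact_mod_cast hUV
  have hLpos : (1 : ℤ) ≤ T.card := by exact_mod_cast hT.card_pos
  set L : ℤ := (T.card : ℤ) with hL
  set p : ℤ := (U.card : ℤ) - L with hp
  have hUc : (U.card : ℤ) = L + p := by rw [hp]; ring
  have hVc : (V.card : ℤ) = L - p := by rw [hp]; linarith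
  have hVn : (0 : ℤ) ≤ V.card := Int.natCast_nonneg _
  have hg0 := ps_zero hg
  have hUne : U.Nonempty := hT.mono Finset.subset_union_left
  have s31 := hg.symdec L 1 3 (by linarith) (by norm_num) (by norm_num)
  rcases eq_or_lt_of_le hp1 with hp2 | hp2
  · -- p = 1
    have hpe : p = 1 := hp2.symm
    have hd1 : (T \ sh T (y i)).card ≤ 1 := by
      have h4 : (T \ sh T (y i)).card + (T ∩ sh T (y i)).card = T.card :=
        Finset.card_sdiff_add_card_inter _ _
      have h5 : (V.card : ℤ) = T.card - 1 := by rw [hVc, hpe]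
      have h6 : (T ∩ sh T (y i)).card = V.card := rfl
      omega
    have hcU := chain_union T (y i) hd1
    have hcV := chain_inter T (y i) hd1
    have hU2 : 2 ≤ U.card := by
      have : (2 : ℤ) ≤ U.card := by rw [hUc, hpe]; linarith
      exact_mod_cast this
    have bU := ps_step y I c g hg hF U (y k) 2 (by norm_num)
      (fun _ => ps_ge_two U (y i) (y k) hyi hyk hne hcU hU2)
    rw [hUc, hpe] at bU
    rw [hpe] at hVc
    have hL3 : L = 1 ∨ L = 2 ∨ 3 ≤ L := by omega
    rcases hL3 with h | h | h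
    · -- L = 1
      have bV := ps_step y I c g hg hF V (y k) 0 le_rfl (fun hne' => by
        have := hne'.card_pos
        omega)
      rw [hVc, h] at bV
      rw [h] at bU ⊢
      have h2 := hg.two
      have o2 := hg.odd 2
      norm_num at bU bV ⊢
      rw [hg0] at bU bV
      rw [mul_assoc, e3]
      simp only [hg0]
      linarith
    · have bV := ps_step y I c g hg hF V (y k) 1 (by norm_num)
        (fun hne' => ps_ge_one V (y k) hyk hne')
      rw [hVc, h] at bV
      rw [h] at bU ⊢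
      have h3 := hg.three
      have o1 := hg.odd 1
      norm_num at bU bV ⊢
      rw [hg0] at bV
      rw [mul_assoc, e3]
      linarith
    · have hV2 : 2 ≤ V.card := by
        have : (2 : ℤ) ≤ V.card := by rw [hVc]; linarith
        exact_mod_cast this
      have bV := ps_step y I c g hg hF V (y k) 2 (by norm_num)
        (fun _ => ps_ge_two V (y i) (y k) hyi hyk hne hcV hV2)
      rw [hVc] at bV
      have a1 : L + 1 + 2 = L + 3 := by ring
      have a2 : L + 1 - 2 = L - 1 := by ring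
      have a3 : L - 1 + 2 = L + 1 := by ring
      have a4 : L - 1 - 2 = L - 3 := by ring
      rw [a1, a2] at bU
      rw [a3, a4] at bV
      rw [mul_assoc, e3]
      linarith
  · have bU := ps_step y I c g hg hF U (y k) 1 (by norm_num)
      (fun _ => ps_ge_one U (y k) hyk hUne)
    have bV := ps_step y I c g hg hF V (y k) 1 (by norm_num)
      (fun hne' => ps_ge_one V (y k) hyk hne')
    rw [hUc] at bU
    rw [hVc] at bV
    have s1 := hg.symdec L 3 (p + 1) (by linarith) (by norm_num) (by linarith)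
    have s2 := hg.symdec L 1 (p - 1) (by linarith) (by norm_num) (by linarith)
    have a1 : L + p + 1 = L + (p + 1) := by ring
    have a2 : L + p - 1 = L + (p - 1) := by ring
    have a3 : L - p + 1 = L - (p - 1) := by ring
    have a4 : L - p - 1 = L - (p + 1) := by ring
    rw [a1, a2] at bU
    rw [a3, a4] at bV
    rw [mul_assoc, e3]
    linarith

/-- single step -/
theorem single_step {ι : Type*} [DecidableEq ι] (y : ι → ℝ) (I : Finset ι) (i : ι)
    (hi : i ∉ I) (hyi : y i ≠ 0)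
    (c : ℤ) (hc : 0 ≤ c) (g : ℤ → ℤ) (hg : OC g)
    (hF : ∀ T : Finset ℝ, c * (N y I (T : Set ℝ) : ℤ) ≤ g (T.card : ℤ)) (T : Finset ℝ) :
    c * (N y (insert i I) (T : Set ℝ) : ℤ) ≤ g ((T.card : ℤ) + 1) + g ((T.card : ℤ) - 1) := by
  have e0 : (N y (insert i I) (T : Set ℝ) : ℤ) =
      (N y I (T : Set ℝ) : ℤ) + N y I ((sh T (y i) : Finset ℝ) : Set ℝ) := by
    rw [N_insert y _ i hi, ps_coe]
    push_cast
    ring
  rw [e0, mul_add]
  exact ps_step y I c g hg hF T (y i) 1 (by norm_num) (fun h => ps_ge_one T (y i) hyi h)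

end Pool.Agent.Helper470.ZS.E
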