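import Mathlib
import Pool.Agent.Helper470.ZS.Defs
import Pool.Agent.Helper470.ZS.A
import Pool.Agent.Helper470.ZS.B
import Pool.Agent.Helper470.ZS.C
import Pool.Agent.Helper470.ZS.E
import Pool.Agent.Helper470.ZS.F
set_option autoImplicit false
noncomputable section
open Finset

namespace Pool.Agent.Helper470.ZS.H
open Pool.Agent.Helper470.ZS.A Pool.Agent.Helper470.ZS.C Pool.Agent.Helper470.ZS.E Pool.Agent.Helper470.ZS.F

theorem case_one {ι : Type*} [DecidableEq ι] (y : ι → ℝ) (k : ℕ) (I : Finset ι)
    (hy : ∀ i ∈ I, y i ≠ 0) (h2 : 2 * k ≤ I.card)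
    (hcl : ∀ c : ℝ, (I.filter (fun i => |y i| = c)).card + k ≤ I.card) (T : Finset ℝ) :
    2 ^ k * (N y I (T : Set ℝ) : ℤ) ≤ G (I.card + k) (T.card : ℤ) := by
  classical
  have hOC : ∀ j, OC (G j) := fun j => ⟨G_neg j, G_conc j⟩
  induction k generalizing I T with
  | zero =>
    clear h2 hcl
    simp only [pow_zero, one_mul, add_zero]
    induction I using Finset.induction_on generalizing T with
    | empty =>
      rw [N_empty_index]
      simp only [Finset.card_empty, G]
      split_ifs with h
      · have h1 : 0 < (T.card : ℤ) := by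
          have : 0 < T.card := Finset.card_pos.2 ⟨0, by simpa using h⟩
          exact_mod_cast this
        rw [Int.sign_eq_one_of_pos h1]
        simp
      · simp only [Nat.cast_zero]
        rcases Nat.eq_zero_or_pos T.card with h0 | h0
        · rw [h0]; simp
        · rw [Int.sign_eq_one_of_pos (by exact_mod_cast h0)]; norm_num
    | insert a I ha ih =>
      have hya : y a ≠ 0 := hy a (Finset.mem_insert_self a I)
      have hF : ∀ T : Finset ℝ, (1 : ℤ) * (N y I (T : Set ℝ) : ℤ) ≤ G I.card (T.card : ℤ) := by
        intro T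
        rw [one_mul]
        exact ih (fun i hi => hy i (Finset.mem_insert_of_mem hi)) T
      have h := single_step y I a ha hya 1 (by norm_num) (G I.card) (hOC _) hF T
      rw [one_mul] at h
      rw [Finset.card_insert_of_notMem ha]
      simpa [G] using h
  | succ k ih =>
    obtain ⟨i, hi, j, hj, hij, hne, hcl'⟩ := pair_select (fun i => |y i|) I k h2 hcl
    set J := (I.erase i).erase j with hJ
    have hjI : j ∈ I.erase i := Finset.mem_erase.2 ⟨hij.symm, hj⟩
    have hJc : J.card + 2 = I.card := by
      have h1 := Finset.card_erase_add_one hjI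
      have h3 := Finset.card_erase_add_one hi
      rw [← hJ] at h1
      omega
    have hJI : J ⊆ I := (Finset.erase_subset _ _).trans (Finset.erase_subset _ _)
    have hins : insert i (insert j J) = I := by
      rw [hJ, Finset.insert_erase hjI, Finset.insert_erase hi]
    have hiJ : i ∉ J := by
      rw [hJ]; simp
    have hjJ : j ∉ J := by
      rw [hJ]; simp
    have hF : ∀ T : Finset ℝ, (2 : ℤ) ^ k * (N y J (T : Set ℝ) : ℤ) ≤ G (J.card + k) (T.card : ℤ) :=
      fun T => ih J (fun i hi => hy i (hJI hi)) (by omega) hcl' T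
    have h := pair_step y J i j hiJ hjJ hij (hy i hi) (hy j hj) hne (2 ^ k) (by positivity)
      (G (J.card + k)) (hOC _) hF T
    rw [hins] at h
    have e : I.card + (k + 1) = (J.card + k) + 3 := by omega
    rw [e, pow_succ, mul_comm ((2 : ℤ) ^ k) 2]
    refine h.trans (le_of_eq ?_)
    simp only [G]
    ring_nf

end Pool.Agent.Helper470.ZS.H
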