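import Mathlib
import Pool.Agent.Helper470.ZS.Defs
set_option autoImplicit false
noncomputable section
open Finset

namespace Pool.Agent.Helper470.ZS.Q

theorem lam_even (k : ℕ) : lam (2 * k) = (Nat.centralBinom k : ℝ) / 4 ^ k := by
  unfold lam Nat.centralBinom
  rw [Nat.mul_div_cancel_left k (by norm_num), pow_mul]
  norm_num

theorem lam_even_succ (k : ℕ) :
    lam (2 * k + 2) = lam (2 * k) * ((2 * k + 1) / (2 * k + 2)) := by
  have h := Nat.succ_mul_centralBinom_succ k
  have h' : ((k : ℝ) + 1) * (Nat.centralBinom (k + 1) : ℝ) =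
      2 * (2 * k + 1) * (Nat.centralBinom k : ℝ) := by exact_mod_cast h
  have e : 2 * k + 2 = 2 * (k + 1) := by ring
  rw [e, lam_even, lam_even, pow_succ]
  have hk : (0 : ℝ) < k + 1 := by positivity
  have h4 : (0 : ℝ) < 4 ^ k := by positivity
  field_simp
  linarith

theorem lam_odd (k : ℕ) : lam (2 * k + 1) = lam (2 * k + 2) := by
  unfold lam
  have e1 : (2 * k + 1) / 2 = k := by omega
  have e2 : (2 * k + 2) / 2 = k + 1 := by omega
  have e3 : (2 * k + 2).choose (k + 1) = 2 * (2 * k + 1).choose k := by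
    have h1 : (2 * k + 2).choose (k + 1) = (2 * k + 1).choose k + (2 * k + 1).choose (k + 1) :=
      Nat.choose_succ_succ _ _
    have h2 : (2 * k + 1).choose (k + 1) = (2 * k + 1).choose k := by
      have := Nat.choose_symm_half k
      exact this
    rw [h1, h2]
    ring
  rw [e1, e2, e3, pow_succ 2 (2 * k + 1)]
  push_cast
  have : (0 : ℝ) < 2 ^ (2 * k + 1) := by positivity
  field_simp

theorem lam_odd' (k : ℕ) : lam (2 * k + 1) = lam (2 * k) * ((2 * k + 1) / (2 * k + 2)) := by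
  rw [lam_odd, lam_even_succ]

theorem lam_zero : lam 0 = 1 := by simp [lam]

theorem lam_one : lam 1 = 1 / 2 := by simp [lam]

theorem lam_pos (j : ℕ) : 0 < lam j := by
  unfold lam
  have : 0 < j.choose (j / 2) := Nat.choose_pos (Nat.div_le_self _ _)
  positivity

theorem lam_anti : Antitone lam := by
  refine antitone_nat_of_succ_le fun j => ?_
  rcases Nat.even_or_odd' j with ⟨k, rfl | rfl⟩
  · rw [lam_odd']
    have h1 := lam_pos (2 * k)
    have h2 : ((2 * k + 1 : ℝ) / (2 * k + 2)) ≤ 1 := by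
      rw [div_le_one (by positivity)]
      linarith
    exact mul_le_of_le_one_right h1.le h2
  · rw [lam_odd]

theorem lam_le_one (j : ℕ) : lam j ≤ 1 := by
  rw [← lam_zero]
  exact lam_anti (Nat.zero_le j)

theorem lam_le_half (j : ℕ) (hj : 1 ≤ j) : lam j ≤ 1 / 2 := by
  rw [← lam_one]
  exact lam_anti hj

theorem lam_upper_even (m : ℕ) : lam (2 * m + 2) ^ 2 ≤ 3 / (4 * (2 * (m : ℝ) + 3)) := by
  induction m with
  | zero =>
    have : lam 2 = 1 / 2 := by
      have := lam_odd 0
      simp only [mul_zero, zero_add] at this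
      rw [← this, lam_one]
    simp only [mul_zero, zero_add]
    rw [this]
    norm_num
  | succ m ih =>
    have e : 2 * (m + 1) + 2 = 2 * (m + 1) + 2 := rfl
    rw [lam_even_succ, mul_pow]
    have h1 : 2 * (m + 1) = 2 * m + 2 := by ring
    rw [h1]
    push_cast
    calc lam (2 * m + 2) ^ 2 * ((2 * ((m : ℝ) + 1) + 1) / (2 * ((m : ℝ) + 1) + 2)) ^ 2
        ≤ 3 / (4 * (2 * (m : ℝ) + 3)) * ((2 * ((m : ℝ) + 1) + 1) / (2 * ((m : ℝ) + 1) + 2)) ^ 2 :=
          mul_le_mul_of_nonneg_right ih (by positivity)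
      _ ≤ 3 / (4 * (2 * ((m : ℝ) + 1) + 3)) := by
          rw [div_pow, div_mul_div_comm, div_le_div_iff₀ (by positivity) (by positivity)]
          have hm : (0 : ℝ) ≤ m := by positivity
          nlinarith [mul_nonneg hm hm, mul_nonneg (mul_nonneg hm hm) hm]

theorem lam_upper (j : ℕ) (hj : 1 ≤ j) : lam j ^ 2 ≤ 3 / (4 * ((j : ℝ) + 1)) := by
  rcases Nat.even_or_odd' j with ⟨k, rfl | rfl⟩
  · obtain ⟨m, rfl⟩ : ∃ m, k = m + 1 := ⟨k - 1, by omega⟩
    have h := lam_upper_even m
    have e : 2 * (m + 1) = 2 * m + 2 := by ring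
    rw [e]
    refine h.trans (le_of_eq ?_)
    push_cast
    ring
  · rw [lam_odd]
    refine (lam_upper_even k).trans ?_
    push_cast
    apply div_le_div_of_nonneg_left (by norm_num) (by positivity)
    linarith

theorem lam_lower_odd (m : ℕ) : 1 / (2 * (2 * (m : ℝ) + 2)) ≤ lam (2 * m + 1) ^ 2 := by
  induction m with
  | zero =>
    simp only [mul_zero, zero_add]
    rw [lam_one]
    norm_num
  | succ m ih =>
    rw [lam_odd']
    have h1 : 2 * (m + 1) = 2 * m + 2 := by ring
    rw [h1, ← lam_odd, mul_pow]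
    push_cast
    calc 1 / (2 * (2 * ((m : ℝ) + 1) + 2)) ≤
        1 / (2 * (2 * (m : ℝ) + 2)) * ((2 * ((m : ℝ) + 1) + 1) / (2 * ((m : ℝ) + 1) + 2)) ^ 2 := by
          rw [div_pow, div_mul_div_comm, div_le_div_iff₀ (by positivity) (by positivity)]
          have hm : (0 : ℝ) ≤ m := by positivity
          nlinarith [mul_nonneg hm hm, mul_nonneg (mul_nonneg hm hm) hm]
      _ ≤ lam (2 * m + 1) ^ 2 * ((2 * ((m : ℝ) + 1) + 1) / (2 * ((m : ℝ) + 1) + 2)) ^ 2 :=
          mul_le_mul_of_nonneg_right ih (by positivity)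

theorem lam_lower (j : ℕ) : 1 / (2 * ((j : ℝ) + 1)) ≤ lam j ^ 2 := by
  rcases Nat.even_or_odd' j with ⟨k, rfl | rfl⟩
  · rcases Nat.eq_zero_or_pos k with rfl | hk
    · simp only [mul_zero, Nat.cast_zero, zero_add]
      rw [lam_zero]
      norm_num
    · obtain ⟨m, rfl⟩ : ∃ m, k = m + 1 := ⟨k - 1, by omega⟩
      have e : 2 * (m + 1) = 2 * m + 2 := by ring
      rw [e, ← lam_odd]
      refine le_trans ?_ (lam_lower_odd m)
      push_cast
      apply one_div_le_one_div_of_le (by positivity)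
      linarith
  · refine le_trans (le_of_eq ?_) (lam_lower_odd k)
    push_cast
    ring

theorem lam_mono' (i j : ℕ) (hij : i ≤ j) : lam i * ((i : ℝ) + 1) ≤ lam j * ((j : ℝ) + 1) := by
  have hm : Monotone (fun j : ℕ => lam j * ((j : ℝ) + 1)) := by
    refine monotone_nat_of_le_succ fun j => ?_
    rcases Nat.even_or_odd' j with ⟨k, rfl | rfl⟩
    · rw [lam_odd']
      push_cast
      have : (0 : ℝ) < 2 * k + 2 := by positivity
      apply le_of_eq
      field_simp
      ring
    · rw [lam_odd]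
      push_cast
      have := lam_pos (2 * k + 1 + 1)
      have e : lam (2 * k + 2) = lam (2 * k + 1 + 1) := rfl
      rw [e]
      nlinarith
  exact hm hij

theorem two_pow_le_choose (n : ℕ) : (2 : ℝ) ^ n ≤ ((n : ℝ) + 1) * (n.choose (n / 2) : ℝ) := by
  have h := lam_mono' 0 n (Nat.zero_le n)
  rw [lam_zero] at h
  unfold lam at h
  have h2 : (0 : ℝ) < 2 ^ n := by positivity
  rw [Nat.cast_zero, zero_add, mul_one, div_mul_eq_mul_div, le_div_iff₀ h2] at h
  linarith

/-- the numerical inequality of case 2a -/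
theorem case_twoA_num (n M v : ℕ) (K : ℝ) (hn : 600 ≤ n) (hK : 0 < K)
    (hM : 99 * n ≤ 100 * M) (hMn : M ≤ n) (hv : 25 / 4 * (n : ℝ) ≤ K ^ 2 * v) :
    lam v * (1 / K + lam M) ≤ lam n := by
  have hn' : (600 : ℝ) ≤ n := by exact_mod_cast hn
  have hv1 : 1 ≤ v := by
    rcases Nat.eq_zero_or_pos v with rfl | h
    · exfalso
      rw [Nat.cast_zero, mul_zero] at hv
      linarith
    · exact h
  have h1 := lam_le_half v hv1
  have h0 := lam_pos v
  have hup := lam_upper v hv1
  have hlo := lam_lower n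
  have hmono := lam_mono' M n hMn
  have hM' : (99 : ℝ) * n ≤ 100 * M := by exact_mod_cast hM
  have hlM := lam_pos M
  have hln := lam_pos n
  have hMle : lam M ≤ 100 / 99 * lam n := by
    have h2 : (99 / 100 : ℝ) * (n + 1) ≤ M + 1 := by linarith
    have h3 : lam M * ((99 / 100 : ℝ) * (n + 1)) ≤ lam n * (n + 1) :=
      (mul_le_mul_of_nonneg_left h2 hlM.le).trans hmono
    have h4 : (0 : ℝ) < n + 1 := by linarith
    have h5 : (lam M * (99 / 100)) * ((n : ℝ) + 1) ≤ lam n * (n + 1) := by linarith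
    have h6 := le_of_mul_le_mul_right h5 h4
    linarith
  have hA : lam v * lam M ≤ 50 / 99 * lam n := by
    calc lam v * lam M ≤ 1 / 2 * (100 / 99 * lam n) :=
          mul_le_mul h1 hMle hlM.le (by norm_num)
      _ = _ := by ring
  have hB : lam v / K ≤ 49 / 99 * lam n := by
    refine le_of_pow_le_pow_left₀ (n := 2) (by norm_num) (by positivity) ?_
    have hKv : 25 / 4 * (n : ℝ) ≤ K ^ 2 * (v + 1) := by nlinarith [sq_nonneg K]
    have h2 : (lam v / K) ^ 2 ≤ 3 / (25 * n) := by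
      rw [div_pow, div_le_div_iff₀ (by positivity) (by positivity)]
      rw [le_div_iff₀ (by positivity)] at hup
      have h3 : lam v ^ 2 * (25 * (n : ℝ)) ≤ lam v ^ 2 * (4 * (K ^ 2 * (v + 1))) :=
        mul_le_mul_of_nonneg_left (by linarith) (by positivity)
      have h4 : lam v ^ 2 * (4 * (K ^ 2 * ((v : ℝ) + 1))) = (lam v ^ 2 * (4 * (v + 1))) * K ^ 2 := by
        ring
      have h5 : (lam v ^ 2 * (4 * ((v : ℝ) + 1))) * K ^ 2 ≤ 3 * K ^ 2 :=
        mul_le_mul_of_nonneg_right hup (by positivity)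
      linarith
    have h3 : (3 : ℝ) / (25 * n) ≤ (49 / 99) ^ 2 * (1 / (2 * (n + 1))) := by
      rw [mul_one_div, div_le_div_iff₀ (by positivity) (by positivity)]
      nlinarith
    calc (lam v / K) ^ 2 ≤ 3 / (25 * n) := h2
      _ ≤ (49 / 99) ^ 2 * (1 / (2 * (n + 1))) := h3
      _ ≤ (49 / 99) ^ 2 * lam n ^ 2 := by gcongr
      _ = _ := by ring
  have : lam v * (1 / K + lam M) = lam v / K + lam v * lam M := by ring
  rw [this]
  linarith

end Pool.Agent.Helper470.ZS.Q
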