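import Mathlib
import Pool.Agent.Helper470.ZS.Defs
import Pool.Agent.Helper470.ZS.Q
set_option autoImplicit false
noncomputable section
open Finset

namespace Pool.Agent.Helper470.ZS.S
open Pool.Agent.Helper470.ZS.Q

theorem N_exp {ι : Type*} [DecidableEq ι] (y : ι → ℝ) (I : Finset ι) (θ : ℝ) :
    (N y I {0} : ℝ) ≤ ∏ i ∈ I, (1 + Real.exp (-θ * y i)) := by
  classical
  rw [Finset.prod_one_add]
  have h1 : ∀ B : Finset ι, ∏ i ∈ B, Real.exp (-θ * y i) = Real.exp (-θ * ∑ i ∈ B, y i) := by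
    intro B
    rw [← Real.exp_sum, Finset.mul_sum]
  have h2 : ∑ B ∈ I.powerset, ∏ i ∈ B, Real.exp (-θ * y i) =
      ∑ B ∈ I.powerset, Real.exp (-θ * ∑ i ∈ B, y i) := Finset.sum_congr rfl fun B _ => h1 B
  rw [h2]
  have h3 : (N y I {0} : ℝ) = ∑ B ∈ I.powerset.filter (fun B => ∑ i ∈ B, y i ∈ ({0} : Set ℝ)),
      Real.exp (-θ * ∑ i ∈ B, y i) := by
    unfold N
    rw [Finset.sum_congr rfl (g := fun _ => (1 : ℝ))]
    · rw [Finset.sum_const, nsmul_eq_mul, mul_one]
      congr!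
    · intro B hB
      have h4 : ∑ i ∈ B, y i = 0 := (Finset.mem_filter.1 hB).2
      rw [h4, mul_zero, Real.exp_zero]
  rw [h3]
  apply Finset.sum_le_sum_of_subset_of_nonneg (Finset.filter_subset _ _)
  intro B _ _
  exact (Real.exp_pos _).le

theorem case_twoB_num1 : 1 + Real.exp (-(1 / 2)) ≤ Real.exp (0.4745) := by
  have h1 : Real.exp (-(1 / 2)) ≤ 0.60654 := by
    have h2 : Real.exp (-(1 / 2)) ^ 2 * Real.exp 1 = 1 := by
      rw [← Real.exp_nat_mul, ← Real.exp_add]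
      norm_num
    have h3 := Real.exp_one_gt_d9
    have h4 := Real.exp_pos (-(1 / 2))
    by_contra hcon
    push Not at hcon
    have h5 : (0.60654 : ℝ) ^ 2 < Real.exp (-(1 / 2)) ^ 2 := by
      apply pow_lt_pow_left₀ hcon (by norm_num) (by norm_num)
    have h6 : (0.60654 : ℝ) ^ 2 * 2.7182818283 < Real.exp (-(1 / 2)) ^ 2 * Real.exp 1 :=
      mul_lt_mul h5 h3.le (by norm_num) (by positivity)
    rw [h2] at h6
    norm_num at h6
  have h7 := Real.sum_le_exp_of_nonneg (x := 0.4745) (by norm_num) 5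
  simp only [Finset.sum_range_succ, Finset.sum_range_zero, Nat.factorial] at h7
  norm_num at h7 h1 ⊢
  linarith

theorem case_twoB_num2 (x : ℝ) (hx : 600 ≤ x) : x + 1 ≤ Real.exp (0.0335 * x) := by
  have h1 := Real.add_one_le_exp (0.0335 * x / 4)
  have h2 : Real.exp (0.0335 * x) = (Real.exp (0.0335 * x / 4) ^ 2) ^ 2 := by
    rw [← pow_mul, ← Real.exp_nat_mul]
    congr 1
    norm_num
    ring
  rw [h2]
  have h3 : (0.0335 * x / 4 + 1) ^ 2 ≤ Real.exp (0.0335 * x / 4) ^ 2 :=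
    pow_le_pow_left₀ (by positivity) h1 2
  have h4 : 36 + 0.06 * (x - 600) ≤ (0.0335 * x / 4 + 1) ^ 2 := by nlinarith
  have h5 : 36 + 0.06 * (x - 600) ≤ Real.exp (0.0335 * x / 4) ^ 2 := h4.trans h3
  have h6 : (36 + 0.06 * (x - 600)) ^ 2 ≤ (Real.exp (0.0335 * x / 4) ^ 2) ^ 2 :=
    pow_le_pow_left₀ (by linarith) h5 2
  refine le_trans ?_ h6
  nlinarith

theorem case_twoB {ι : Type*} [DecidableEq ι] (y : ι → ℝ) (n z : ℕ) (Ip Im Iw : Finset ι)
    (h1 : Disjoint Ip Im) (h2 : Disjoint (Ip ∪ Im) Iw)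
    (hp : ∀ i ∈ Ip, y i = 1) (hm : ∀ i ∈ Im, y i = -1) (hn : 600 ≤ n)
    (hcard : Ip.card + Im.card + Iw.card + z = n)
    (hz : 200 * (z + 1) ≤ n) (hu : Iw.card ≤ z) (hq : 400 * Im.card ≤ n)
    (hw : ∑ i ∈ Iw, |y i| ≤ 2 * Real.sqrt (25 / 4 * (n : ℝ) * Iw.card)) :
    (2 : ℝ) ^ z * (N y ((Ip ∪ Im) ∪ Iw) {0} : ℝ) ≤ (n.choose (n / 2) : ℝ) := by
  have hN := N_exp y ((Ip ∪ Im) ∪ Iw) (1 / 2)
  rw [Finset.prod_union h2, Finset.prod_union h1] at hN
  set p := Ip.card with hpdef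
  set m := Im.card with hmdef
  set w := Iw.card with hwdef
  have c1 := case_twoB_num1
  have e1 : ∏ i ∈ Ip, (1 + Real.exp (-(1 / 2) * y i)) ≤ Real.exp (0.4745 * p) := by
    have : ∏ i ∈ Ip, (1 + Real.exp (-(1 / 2) * y i)) = (1 + Real.exp (-(1 / 2))) ^ p := by
      rw [Finset.prod_congr rfl (g := fun _ => 1 + Real.exp (-(1 / 2))), Finset.prod_const]
      intro i hi
      rw [hp i hi, mul_one]
    rw [this]
    calc (1 + Real.exp (-(1 / 2))) ^ p ≤ Real.exp 0.4745 ^ p :=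
          pow_le_pow_left₀ (by positivity) c1 p
      _ = Real.exp (0.4745 * p) := by rw [← Real.exp_nat_mul, mul_comm]
  have e2 : ∏ i ∈ Im, (1 + Real.exp (-(1 / 2) * y i)) ≤ Real.exp (0.9745 * m) := by
    have : ∏ i ∈ Im, (1 + Real.exp (-(1 / 2) * y i)) = (1 + Real.exp (1 / 2)) ^ m := by
      rw [Finset.prod_congr rfl (g := fun _ => 1 + Real.exp (1 / 2)), Finset.prod_const]
      intro i hi
      rw [hm i hi]
      norm_num
    rw [this]
    have h3 : 1 + Real.exp (1 / 2) ≤ Real.exp 0.9745 := by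
      have h4 : Real.exp (1 / 2) * Real.exp (-(1 / 2)) = 1 := by
        rw [← Real.exp_add]; norm_num
      have h5 : Real.exp 0.9745 = Real.exp (1 / 2) * Real.exp 0.4745 := by
        rw [← Real.exp_add]; norm_num
      rw [h5]
      have h6 : 1 + Real.exp (1 / 2) = Real.exp (1 / 2) * (1 + Real.exp (-(1 / 2))) := by
        rw [mul_add, h4]; ring
      rw [h6]
      exact mul_le_mul_of_nonneg_left c1 (Real.exp_pos _).le
    calc (1 + Real.exp (1 / 2)) ^ m ≤ Real.exp 0.9745 ^ m :=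
          pow_le_pow_left₀ (by positivity) h3 m
      _ = Real.exp (0.9745 * m) := by rw [← Real.exp_nat_mul, mul_comm]
  have hlog := Real.log_two_lt_d9
  have hlog' := Real.log_two_gt_d9
  have htwo : ∀ k : ℕ, (2 : ℝ) ^ k ≤ Real.exp (0.69315 * k) := by
    intro k
    have : (2 : ℝ) ^ k = Real.exp (Real.log 2 * k) := by
      rw [mul_comm, Real.exp_nat_mul, Real.exp_log (by norm_num)]
    rw [this]
    apply Real.exp_le_exp.2
    apply mul_le_mul_of_nonneg_right _ (Nat.cast_nonneg k)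
    linarith
  have e3 : ∏ i ∈ Iw, (1 + Real.exp (-(1 / 2) * y i)) ≤
      Real.exp (0.69315 * w) * Real.exp ((∑ i ∈ Iw, |y i|) / 2) := by
    have h3 : ∏ i ∈ Iw, (1 + Real.exp (-(1 / 2) * y i)) ≤ ∏ i ∈ Iw, (2 * Real.exp (|y i| / 2)) := by
      apply Finset.prod_le_prod
      · intro i _; positivity
      · intro i _
        have h4 : Real.exp (-(1 / 2) * y i) ≤ Real.exp (|y i| / 2) := by
          apply Real.exp_le_exp.2
          have := neg_abs_le (y i)
          linarith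
        have h5 : 1 ≤ Real.exp (|y i| / 2) := Real.one_le_exp (by positivity)
        linarith
    rw [Finset.prod_mul_distrib, Finset.prod_const, ← Real.exp_sum, ← Finset.sum_div] at h3
    exact h3.trans (mul_le_mul_of_nonneg_right (htwo w) (Real.exp_pos _).le)
  have hcr : (p : ℝ) + m + w + z = n := by exact_mod_cast hcard
  have hzr : 200 * ((z : ℝ) + 1) ≤ n := by exact_mod_cast hz
  have hur : (w : ℝ) ≤ z := by exact_mod_cast hu
  have hqr : 400 * (m : ℝ) ≤ n := by exact_mod_cast hq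
  have hnr : (600 : ℝ) ≤ n := by exact_mod_cast hn
  have hwn : (0 : ℝ) ≤ w := Nat.cast_nonneg w
  have hzn : (0 : ℝ) ≤ z := Nat.cast_nonneg z
  have hsum : (∑ i ∈ Iw, |y i|) / 2 ≤ 0.17678 * n := by
    have h3 : Real.sqrt (25 / 4 * (n : ℝ) * w) ≤ 0.17678 * n := by
      apply Real.sqrt_le_iff.2
      constructor
      · positivity
      · have h4 : (w : ℝ) ≤ n / 200 := by linarith
        have h5 : 25 / 4 * (n : ℝ) * w ≤ 25 / 4 * n * (n / 200) :=
          mul_le_mul_of_nonneg_left h4 (by positivity)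
        nlinarith
    linarith
  have hall : (2 : ℝ) ^ z * (N y ((Ip ∪ Im) ∪ Iw) {0} : ℝ) ≤ Real.exp (0.6596 * n) := by
    have a1 : (N y ((Ip ∪ Im) ∪ Iw) {0} : ℝ) ≤ Real.exp (0.4745 * p) * Real.exp (0.9745 * m) *
        (Real.exp (0.69315 * w) * Real.exp (0.17678 * n)) := by
      refine hN.trans ?_
      apply mul_le_mul
      · apply mul_le_mul e1 e2
        · apply Finset.prod_nonneg; intro i _; positivity
        · positivity
      · exact e3.trans (mul_le_mul_of_nonneg_left (Real.exp_le_exp.2 hsum) (Real.exp_pos _).le)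
      · apply Finset.prod_nonneg; intro i _; positivity
      · positivity
    calc (2 : ℝ) ^ z * (N y ((Ip ∪ Im) ∪ Iw) {0} : ℝ)
        ≤ Real.exp (0.69315 * z) * (Real.exp (0.4745 * p) * Real.exp (0.9745 * m) *
        (Real.exp (0.69315 * w) * Real.exp (0.17678 * n))) :=
          mul_le_mul (htwo z) a1 (Nat.cast_nonneg _) (Real.exp_pos _).le
      _ = Real.exp (0.69315 * z + (0.4745 * p + 0.9745 * m + (0.69315 * w + 0.17678 * n))) := by
          rw [Real.exp_add, Real.exp_add, Real.exp_add, Real.exp_add]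
      _ ≤ Real.exp (0.6596 * n) := by
          apply Real.exp_le_exp.2
          linarith
  have hfin : ((n : ℝ) + 1) * ((2 : ℝ) ^ z * (N y ((Ip ∪ Im) ∪ Iw) {0} : ℝ)) ≤ 2 ^ n := by
    calc ((n : ℝ) + 1) * ((2 : ℝ) ^ z * (N y ((Ip ∪ Im) ∪ Iw) {0} : ℝ))
        ≤ Real.exp (0.0335 * n) * Real.exp (0.6596 * n) :=
          mul_le_mul (case_twoB_num2 n hnr) hall (by positivity) (Real.exp_pos _).le
      _ = Real.exp (0.6931 * n) := by
          rw [← Real.exp_add]; congr 1; ring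
      _ ≤ Real.exp (Real.log 2 * n) := by
          apply Real.exp_le_exp.2
          apply mul_le_mul_of_nonneg_right _ (Nat.cast_nonneg n)
          linarith
      _ = 2 ^ n := by
          rw [mul_comm, Real.exp_nat_mul, Real.exp_log (by norm_num)]
  have hch := two_pow_le_choose n
  exact le_of_mul_le_mul_left (hfin.trans hch) (by positivity)

end Pool.Agent.Helper470.ZS.S
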